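import Pool.Agent.G02.Stmts

/-!
# Squad G02, row ARS: type S
-/

set_option autoImplicit false

namespace Pool.Agent.G02.H34

open Pool.Agent.G02

/-- scaling of the value -/
theorem gd_scale (scl : SclStmt) {D t m : ℚ} (hm : m ≠ 0) (h : Gd D t) : Gd (D * m ^ 2) t := by
  obtain ⟨h1, h2, h3, h4⟩ := h
  refine ⟨mul_ne_zero h1 (pow_ne_zero 2 hm), h2, h3, ?_⟩
  have h5 := (scl (D * t) (D ^ 2 * t) m hm).2 h4
  have e1 : D * m ^ 2 * t = D * t * m ^ 2 := by ring
  have e2 : (D * m ^ 2) ^ 2 * t = D ^ 2 * t * m ^ 4 := by ring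
  rw [e1, e2]
  exact h5

/-- squarefree integers are stable under the sign -/
theorem sqf_neg {a : ℤ} (h : Squarefree a) : Squarefree (-a) := by
  intro x hx
  exact h x ((dvd_neg).1 hx)

/-- a nonzero rational number is a squarefree integer times a square -/
theorem exists_sqf_aux (n : ℤ) (d : ℕ) (hn : n ≠ 0) (hd0 : d ≠ 0) :
    ∃ (k₀ : ℤ) (c : ℚ), Squarefree k₀ ∧ c ≠ 0 ∧ (n : ℚ) / d = k₀ * c ^ 2 := by
  have hd : (d : ℚ) ≠ 0 := by exact_mod_cast hd0
  obtain ⟨a, b, hab, hsq⟩ := Nat.sq_mul_squarefree (n.natAbs * d)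
  have hb : b ≠ 0 := by
    rintro rfl
    apply mul_ne_zero (Int.natAbs_ne_zero.2 hn) hd0
    rw [← hab]
    simp
  have hbq : (b : ℚ) ≠ 0 := by exact_mod_cast hb
  have habq : (b : ℚ) ^ 2 * a = (n.natAbs : ℚ) * d := by exact_mod_cast hab
  have hkd : (n : ℚ) / d = (n : ℚ) * d / (d : ℚ) ^ 2 := by
    field_simp
  have hsa : Squarefree (a : ℤ) := Int.squarefree_natCast.2 hsq
  rcases le_or_gt 0 n with h | h
  · refine ⟨(a : ℤ), (b : ℚ) / d, hsa, div_ne_zero hbq hd, ?_⟩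
    have h1 : ((n.natAbs : ℕ) : ℚ) = (n : ℚ) := by
      have : ((n.natAbs : ℕ) : ℤ) = n := Int.natAbs_of_nonneg h
      rw [← Int.cast_natCast (R := ℚ) n.natAbs, this]
    rw [h1] at habq
    rw [hkd, ← habq, Int.cast_natCast]
    field_simp
  · refine ⟨-(a : ℤ), (b : ℚ) / d, sqf_neg hsa, div_ne_zero hbq hd, ?_⟩
    have h1 : ((n.natAbs : ℕ) : ℚ) = -(n : ℚ) := by
      have : ((n.natAbs : ℕ) : ℤ) = -n := Int.ofNat_natAbs_of_nonpos h.le
      rw [← Int.cast_natCast (R := ℚ) n.natAbs, this, Int.cast_neg]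
    rw [h1] at habq
    have h3 : (n : ℚ) * d = -((b : ℚ) ^ 2 * a) := by
      rw [habq]; ring
    rw [hkd, h3, Int.cast_neg, Int.cast_natCast]
    field_simp

/-- a nonzero rational number is a squarefree integer times a square -/
theorem exists_sqf (k : ℚ) (hk : k ≠ 0) :
    ∃ (k₀ : ℤ) (c : ℚ), Squarefree k₀ ∧ c ≠ 0 ∧ k = k₀ * c ^ 2 := by
  obtain ⟨k₀, c, h1, h2, h3⟩ := exists_sqf_aux k.num k.den (Rat.num_ne_zero.2 hk) k.den_nz
  refine ⟨k₀, c, h1, h2, ?_⟩
  rw [← h3]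
  exact (Rat.num_div_den k).symm

/-- an infinite set of rational numbers -/
theorem inf_of {s : Set ℚ} (h : ∀ N : ℕ, ∃ (a p q : ℕ) (_ : p.Prime) (_ : q.Prime), N < p ∧
    0 < a ∧ Nat.Coprime a q ∧ p ≠ q ∧ ((a * p : ℚ) / q) ∈ s) : s.Infinite := by
  refine Set.Infinite.of_image (fun t : ℚ => t.num.natAbs) ?_
  refine Set.infinite_of_forall_exists_gt fun N => ?_
  obtain ⟨a, p, q, hp, hq, hN, ha, haq, hpq, hs⟩ := h N
  refine ⟨_, ⟨_, hs, rfl⟩, ?_⟩
  have hc : Nat.Coprime (a * p) q :=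
    Nat.Coprime.mul_left haq ((Nat.coprime_primes hp hq).2 hpq)
  have h1 : (((a * p : ℕ) : ℤ) / ((q : ℕ) : ℤ) : ℚ).num = ((a * p : ℕ) : ℤ) :=
    Rat.num_div_eq_of_coprime (by exact_mod_cast hq.pos) (by
      rw [Int.natAbs_natCast, Int.natAbs_natCast]
      exact hc)
  have h2 : ((a * p : ℚ) / q) = (((a * p : ℕ) : ℤ) / ((q : ℕ) : ℤ) : ℚ) := by
    push_cast
    rfl
  change N < ((a * p : ℚ) / q).num.natAbs
  rw [h2, h1, Int.natAbs_natCast]
  calc N < p := hN
    _ = 1 * p := (one_mul p).symm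
    _ ≤ a * p := Nat.mul_le_mul_right p ha

/-- the odd case -/
theorem odd_case (gds : GdsStmt) (gda : GdaStmt) (exa : ExaStmt) (exs : ExsStmt) (k₀ : ℤ)
    (hs : Squarefree k₀) (ho : Odd k₀) : {t : ℚ | Gd (k₀ * t * (t - 4)) t}.Infinite := by
  have h0 : k₀ ≠ 0 := hs.ne_zero
  have cop8 : ∀ q : ℕ, q % 8 = 3 ∨ q % 8 = 5 → Nat.Coprime 8 q := by
    intro q hq
    have h2 : Nat.Coprime 2 q := (Nat.coprime_two_left).2 (Nat.odd_iff.2 (by omega))
    exact (Nat.Coprime.pow_left 3 h2 : Nat.Coprime (2 ^ 3) q)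
  rcases lt_trichotomy k₀ 0 with hneg | hz | hpos
  · by_cases h1 : k₀ = -1
    · subst h1
      refine inf_of fun N => ?_
      obtain ⟨p, q, r, hN, hA, -⟩ := exa (-1) hs N
      have : Fact q.Prime := ⟨hA.pq⟩
      have hg := (gda (-1) p q r hA).2.2 rfl
      refine ⟨2, p, q, hA.pp, hA.pq, hN, two_pos, ?_, hA.ne, ?_⟩
      · exact (Nat.coprime_two_left).2 (Nat.odd_iff.2 (by have := hA.mq; omega))
      · change Gd _ _
        have e : (((-1 : ℤ) : ℚ) * (((2 : ℕ) * p : ℚ) / q) * (((2 : ℕ) * p : ℚ) / q - 4)) =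
            -((2 * p / q) * (2 * p / q - 4)) := by
          push_cast
          ring
        rw [e]
        exact_mod_cast hg
    · refine inf_of fun N => ?_
      obtain ⟨p, q, r, hN, hA, hl⟩ := exs.2 k₀ hs ho hneg h1 N
      have : Fact q.Prime := ⟨hA.pq⟩
      have hg := gds.2 k₀ p q r hA ho hneg hl
      have hne : p ≠ q := by
        have h2 := hA.hr
        have h3 := hA.pr.pos
        have h4 := hA.pp.pos
        omega
      refine ⟨8, p, q, hA.pp, hA.pq, hN, by norm_num, cop8 q (Or.inr hA.mq), hne, ?_⟩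
      change Gd _ _
      exact_mod_cast hg
  · exact absurd hz h0
  · refine inf_of fun N => ?_
    obtain ⟨p, q, r, hN, hA, hl⟩ := exs.1 k₀ hs ho hpos N
    have : Fact q.Prime := ⟨hA.pq⟩
    have hg := gds.1 k₀ p q r hA ho hpos hl
    have hne : p ≠ q := by
      have h2 := hA.hr
      have h3 := hA.pr.pos
      have h4 := hA.pp.pos
      omega
    refine ⟨8, p, q, hA.pp, hA.pq, hN, by norm_num, cop8 q (Or.inl hA.mq), hne, ?_⟩
    change Gd _ _
    exact_mod_cast hg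

/-- the row ARS -/
theorem ars (gds : GdsStmt) (gda : GdaStmt) (exa : ExaStmt) (exs : ExsStmt) (iso : IsoStmt)
    (scl : SclStmt) : ArsStmt := by
  intro k hk
  obtain ⟨k₀, c, hs, hc, rfl⟩ := exists_sqf k hk
  have key : {t : ℚ | Gd (k₀ * t * (t - 4)) t}.Infinite := by
    rcases Int.even_or_odd k₀ with he | ho
    · obtain ⟨k₁, rfl⟩ := he.two_dvd
      have hs1 : Squarefree k₁ := hs.squarefree_of_dvd (Dvd.intro_left 2 rfl)
      have ho1 : Odd k₁ := by
        rw [← Int.not_even_iff_odd]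
        rintro hev
        obtain ⟨k₂, rfl⟩ := hev.two_dvd
        have h1 : (2 : ℤ) * 2 ∣ 2 * (2 * k₂) := ⟨k₂, by ring⟩
        have h2 := hs 2 h1
        have h3 : ¬ IsUnit (2 : ℤ) := by
          rw [Int.isUnit_iff]
          norm_num
        exact h3 h2
      have h1 := odd_case gds gda exa exs (-k₁) (sqf_neg hs1) ho1.neg
      have hne4 : ∀ t : ℚ, Gd (((-k₁ : ℤ) : ℚ) * t * (t - 4)) t → t - 4 ≠ 0 := by
        rintro t ⟨-, -, h3, -⟩ h4
        apply h3
        rw [h4, mul_zero]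
        exact ⟨0, by ring⟩
      have h2 : Set.InjOn (fun t : ℚ => 4 * t / (t - 4))
          {t : ℚ | Gd (((-k₁ : ℤ) : ℚ) * t * (t - 4)) t} := by
        intro t ht t' ht' h
        have a1 := hne4 t ht
        have a2 := hne4 t' ht'
        change 4 * t / (t - 4) = 4 * t' / (t' - 4) at h
        rw [div_eq_div_iff a1 a2] at h
        linarith
      refine (h1.image h2).mono ?_
      rintro _ ⟨t, ht, rfl⟩
      have a1 := hne4 t ht
      have h3 := iso.2 (((-k₁ : ℤ) : ℚ) * t * (t - 4)) t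
        ((((2 * k₁ : ℤ) : ℤ) : ℚ) * (4 * t / (t - 4)) * (4 * t / (t - 4) - 4)) (16 / (t - 4) ^ 2)
        (div_ne_zero (by norm_num) (pow_ne_zero 2 a1)) (by
          push_cast
          field_simp
          ring) ht
      exact h3
    · exact odd_case gds gda exa exs k₀ hs ho
  refine key.mono fun t ht => ?_
  have h1 := gd_scale scl hc ht
  have e : (k₀ : ℚ) * c ^ 2 * t * (t - 4) = k₀ * t * (t - 4) * c ^ 2 := by ring
  change Gd _ _
  rw [e]
  exact h1

end Pool.Agent.G02.H34
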